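import Pool.Agent.Lib.P901b45d.Base

/-!
Functions whose obvious upper bound for the number of twos is attained (MP_901b45_co).
-/

set_option autoImplicit false

namespace Pool.Agent.P901b45p

open Finset Pool.Agent.P901b45e Pool.Agent.P901b45d

variable {α : Type*} [DecidableEq α] {G : Finset α} {h : Finset α → ℤ}

/-- If `x`, with `|x| ≤ h`, has `t` entries `1` and `min (h S) (h (G \ S)) ≤ t` for all `S` that
contain these entries and no entry `-1`, then the tight sets of `x` or those of `-x` separate the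
elements. -/
theorem sol_of_top (hh : Sub G h) (hG : h G = 0) {t : ℤ} {x : α → ℤ}
    (ht : ∀ S ⊆ G, (∀ e ∈ G, x e = 1 → e ∈ S) → (∀ e ∈ S, x e ≠ -1) →
      min (h S) (h (G \ S)) ≤ t)
    (hle : ∀ A ⊆ G, ∑ e ∈ A, x e ≤ h A) (hneg : ∀ A ⊆ G, -∑ e ∈ A, x e ≤ h A)
    (hval : ∀ e ∈ G, x e = 1 ∨ x e = -1 ∨ x e = 0)
    (hcard : ((G.filter (fun i => x i = 1)).card : ℤ) = t) :
    Sol G h x ∨ Sol G h (fun e => -x e) := by
  have htot : ∑ e ∈ G, x e = 0 := by
    have h1 := hle G (Subset.refl _)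
    have h2 := hneg G (Subset.refl _)
    rw [hG] at h1 h2
    omega
  by_cases hL : ∀ i ∈ G, ∀ j ∈ G, i ≠ j → x i = 0 → x j = 0 → ∃ X ⊆ G, ∑ e ∈ X, x e = h X ∧
      ((i ∈ X ∧ j ∉ X) ∨ (j ∈ X ∧ i ∉ X))
  · exact Or.inl (sol_of hh hG hle hneg hval hL)
  right
  push Not at hL
  obtain ⟨a, ha, b, hb, hab, ha0, hb0, htie⟩ := hL
  -- sets between the ones and the complement of the minus ones which separate `a` from `b`
  have key : ∀ S ⊆ G, (∀ e ∈ G, x e = 1 → e ∈ S) → (∀ e ∈ S, x e ≠ -1) →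
      ((a ∈ S ∧ b ∉ S) ∨ (b ∈ S ∧ a ∉ S)) → ∑ e ∈ G \ S, -x e = h (G \ S) := by
    intro S hS h1 h2 h3
    have hsum : ∑ e ∈ S, x e = t := by
      have e1 : ∑ e ∈ S, x e = ∑ e ∈ S, if x e = 1 then (1 : ℤ) else 0 := by
        refine Finset.sum_congr rfl fun e he => ?_
        rcases hval e (hS he) with h4 | h4 | h4
        · rw [h4, if_pos rfl]
        · exact absurd h4 (h2 e he)
        · rw [h4, if_neg (by norm_num)]
      have e2 : S.filter (fun e => x e = 1) = G.filter (fun e => x e = 1) := by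
        ext e
        simp only [mem_filter]
        exact ⟨fun h4 => ⟨hS h4.1, h4.2⟩, fun h4 => ⟨h1 e h4.1 h4.2, h4.2⟩⟩
      rw [e1, Finset.sum_boole, e2]
      exact_mod_cast hcard
    have h5 : h S ≠ t := by
      intro h6
      have h7 := htie S hS (by rw [hsum, h6])
      rcases h3 with h3 | h3
      · exact h3.2 (h7.1 h3.1)
      · exact h3.2 (h7.2 h3.1)
    have h6 := hle S hS
    rw [hsum] at h6
    have h7 : t + 1 ≤ h S := by omega
    have h8 := ht S hS h1 h2
    have h9 : h (G \ S) ≤ t := by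
      rcases min_le_iff.1 h8 with h10 | h10
      · omega
      · exact h10
    have h10 := hneg (G \ S) sdiff_subset
    have h11 := Finset.sum_sdiff hS (f := x)
    rw [sum_neg_distrib]
    omega
  have hsub : ∀ (Z : Finset α), Z ⊆ G → G.filter (fun i => x i = 1) ∪ Z ⊆ G := fun Z hZ =>
    union_subset (filter_subset _ _) hZ
  have hone : ∀ (Z : Finset α), ∀ e ∈ G, x e = 1 → e ∈ G.filter (fun i => x i = 1) ∪ Z :=
    fun Z e he h1 => mem_union_left _ (mem_filter.2 ⟨he, h1⟩)
  have hmone : ∀ (Z : Finset α), (∀ e ∈ Z, x e = 0) →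
      ∀ e ∈ G.filter (fun i => x i = 1) ∪ Z, x e ≠ -1 := by
    intro Z hZ e he
    rcases mem_union.1 he with h1 | h1
    · rw [(mem_filter.1 h1).2]; norm_num
    · rw [hZ e h1]; norm_num
  have hmem : ∀ (Z : Finset α), ∀ e, x e = 0 →
      (e ∈ G.filter (fun i => x i = 1) ∪ Z ↔ e ∈ Z) := by
    intro Z e he
    rw [mem_union, mem_filter]
    constructor
    · rintro (h1 | h1)
      · rw [he] at h1
        exact absurd h1.2 (by norm_num)
      · exact h1
    · exact Or.inr
  refine sol_of hh hG (x := fun e => -x e) (fun A hA => ?_) (fun A hA => ?_) (fun e he => ?_) ?_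
  · rw [sum_neg_distrib]; exact hneg A hA
  · rw [sum_neg_distrib, neg_neg]; exact hle A hA
  · rcases hval e he with h1 | h1 | h1 <;> rw [h1] <;> norm_num
  intro i hi j hj hij hi0 hj0
  have hi0' : x i = 0 := by simpa using hi0
  have hj0' : x j = 0 := by simpa using hj0
  -- a set `Z` of zeros which contains exactly one of `a`, `b` and exactly one of `i`, `j`
  have hZ : ∃ Z : Finset α, Z ⊆ G ∧ (∀ e ∈ Z, x e = 0) ∧ ((a ∈ Z ∧ b ∉ Z) ∨ (b ∈ Z ∧ a ∉ Z)) ∧
      ((i ∈ Z ∧ j ∉ Z) ∨ (j ∈ Z ∧ i ∉ Z)) := by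
    by_cases hia : i = a ∨ i = b
    · refine ⟨{i}, singleton_subset_iff.2 hi, fun e he => by rw [mem_singleton.1 he]; exact hi0',
        ?_, Or.inl ⟨mem_singleton_self _, fun h1 => hij (mem_singleton.1 h1).symm⟩⟩
      rcases hia with rfl | rfl
      · exact Or.inl ⟨mem_singleton_self _, fun h1 => hab (mem_singleton.1 h1).symm⟩
      · exact Or.inr ⟨mem_singleton_self _, fun h1 => hab (mem_singleton.1 h1)⟩
    · by_cases hja : j = a ∨ j = b
      · refine ⟨{j}, singleton_subset_iff.2 hj, fun e he => by rw [mem_singleton.1 he]; exact hj0',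
          ?_, Or.inr ⟨mem_singleton_self _, fun h1 => hij (mem_singleton.1 h1)⟩⟩
        rcases hja with rfl | rfl
        · exact Or.inl ⟨mem_singleton_self _, fun h1 => hab (mem_singleton.1 h1).symm⟩
        · exact Or.inr ⟨mem_singleton_self _, fun h1 => hab (mem_singleton.1 h1)⟩
      · push Not at hia hja
        refine ⟨{a, i}, ?_, ?_, Or.inl ⟨mem_insert_self _ _, ?_⟩,
          Or.inl ⟨mem_insert_of_mem (mem_singleton_self _), ?_⟩⟩
        · intro e he
          rcases mem_insert.1 he with rfl | he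
          · exact ha
          · rw [mem_singleton.1 he]; exact hi
        · intro e he
          rcases mem_insert.1 he with rfl | he
          · exact ha0
          · rw [mem_singleton.1 he]; exact hi0'
        · intro h1
          rcases mem_insert.1 h1 with h2 | h2
          · exact hab h2.symm
          · exact hia.2 (mem_singleton.1 h2).symm
        · intro h1
          rcases mem_insert.1 h1 with h2 | h2
          · exact hja.1 h2
          · exact hij (mem_singleton.1 h2).symm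
  obtain ⟨Z, hZG, hZ0, hZab, hZij⟩ := hZ
  refine ⟨G \ (G.filter (fun i => x i = 1) ∪ Z), sdiff_subset,
    key _ (hsub Z hZG) (hone Z) (hmone Z hZ0) ?_, ?_⟩
  · rw [hmem Z a ha0, hmem Z b hb0]; exact hZab
  · rw [mem_sdiff, mem_sdiff, hmem Z i hi0', hmem Z j hj0']
    rcases hZij with h1 | h1
    · exact Or.inr ⟨⟨hj, h1.2⟩, fun h2 => h2.2 h1.1⟩
    · exact Or.inl ⟨⟨hi, h1.2⟩, fun h2 => h2.2 h1.1⟩

/-- `q` has a peak on `I`: some integral `u` satisfies together with `2 - u` the inequalities of `q`,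
and the excess `q S - |S|` of `S` or of `I \ S` is at most the number of the entries `2` of `u`, for
every `S ⊆ I` that contains all entries `2` and no entry `0` -/
def Peak {α : Type*} [DecidableEq α] (I : Finset α) (q : Finset α → ℤ) : Prop :=
  ∃ u : α → ℤ, (∀ S ⊆ I, ∑ i ∈ S, u i ≤ q S) ∧ (∀ S ⊆ I, ∑ i ∈ S, (2 - u i) ≤ q S) ∧
    ∀ S ⊆ I, (∀ i ∈ I, u i = 2 → i ∈ S) → (∀ i ∈ S, u i ≠ 0) →
      min (q S - S.card) (q (I \ S) - (I \ S).card) ≤ (I.filter (fun i => u i = 2)).card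

theorem Peak.congr {I : Finset α} {g g' : Finset α → ℤ} (hg : ∀ S ⊆ I, g S = g' S)
    (h : Peak I g) : Peak I g' := by
  obtain ⟨u, h1, h2, h3⟩ := h
  refine ⟨u, fun S hS => ?_, fun S hS => ?_, fun S hS h4 h5 => ?_⟩
  · rw [← hg S hS]; exact h1 S hS
  · rw [← hg S hS]; exact h2 S hS
  · rw [← hg S hS, ← hg _ sdiff_subset]; exact h3 S hS h4 h5

theorem sol_of_peak (hh : Sub G h) (hG : h G = 0)
    (hp : Peak G (fun S => h S + S.card)) : ∃ x, Sol G h x := by
  obtain ⟨u, h3, h4, h1⟩ := hp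
  have hcs : ∀ S : Finset α, ∑ i ∈ S, (u i - 1) = ∑ i ∈ S, u i - S.card := fun S => by
    rw [sum_sub_distrib]; simp
  have hcs' : ∀ S : Finset α, ∑ i ∈ S, (2 - u i) = 2 * S.card - ∑ i ∈ S, u i := fun S => by
    rw [sum_sub_distrib]; simp [mul_comm]
  have k1 : ∀ A ⊆ G, ∑ i ∈ A, (u i - 1) ≤ h A := fun A hA => by
    have h6 := h3 A hA
    rw [hcs]
    linarith
  have k2 : ∀ A ⊆ G, -∑ i ∈ A, (u i - 1) ≤ h A := fun A hA => by
    have h6 := h4 A hA
    rw [hcs]
    rw [hcs'] at h6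
    linarith
  have k3 : ∀ e ∈ G, u e - 1 = 1 ∨ u e - 1 = -1 ∨ u e - 1 = 0 := fun e he => by
    have h6 := k1 {e} (singleton_subset_iff.2 he)
    have h7 := k2 {e} (singleton_subset_iff.2 he)
    have h8 := hh.up ∅ (empty_subset _) e he
    rw [hh.empty] at h8
    simp only [sum_singleton, insert_empty_eq, zero_add] at h6 h7 h8
    omega
  have e1 : G.filter (fun i => u i - 1 = 1) = G.filter (fun i => u i = 2) := by
    refine filter_congr fun i _ => ?_
    constructor <;> intro h6 <;> omega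
  have k4 : ∀ S ⊆ G, (∀ e ∈ G, u e - 1 = 1 → e ∈ S) → (∀ e ∈ S, u e - 1 ≠ -1) →
      min (h S) (h (G \ S)) ≤ ((G.filter (fun i => u i - 1 = 1)).card : ℤ) := by
    intro S hS h5 h6
    have h7 := h1 S hS (fun i hi h8 => h5 i hi (by omega)) (fun i hi h8 => h6 i hi (by omega))
    rw [e1]
    simpa using h7
  rcases sol_of_top (x := fun i => u i - 1) hh hG k4 k1 k2 k3 rfl with h6 | h6
  · exact ⟨_, h6⟩
  · exact ⟨_, h6⟩

end Pool.Agent.P901b45p
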